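import Pool.Agent.X323.LU.Space

/-!
# No nearest points in the kernel of the sum functional
-/

set_option autoImplicit false

namespace Pool.Agent.X323.LU

open scoped ENNReal

/-- the average of the first `N + 1` unit vectors, times `c` -/
noncomputable def av (c : ℝ) (N : ℕ) : graph :=
  ⟨WithLp.toLp 2 (∑ k ∈ Finset.range (N + 1), lp.single 1 k (c / (N + 1)),
    ∑ k ∈ Finset.range (N + 1), lp.single 2 k (c / (N + 1))), by
    intro n
    change (∑ k ∈ Finset.range (N + 1), lp.single 1 k (c / (N + 1)) : L1) n =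
      (∑ k ∈ Finset.range (N + 1), lp.single 2 k (c / (N + 1)) : L2) n
    rw [lp.coeFn_sum, lp.coeFn_sum, Finset.sum_apply, Finset.sum_apply]
    refine Finset.sum_congr rfl fun k _ => ?_
    by_cases h : n = k
    · subst h
      rw [lp.single_apply_self, lp.single_apply_self]
    · rw [lp.single_apply_ne _ _ _ h, lp.single_apply_ne _ _ _ h]⟩

lemma av_apply (c : ℝ) (N n : ℕ) : (av c N).1.fst n = if n < N + 1 then c / (N + 1) else 0 := by
  change (∑ k ∈ Finset.range (N + 1), lp.single 1 k (c / (N + 1)) : L1) n = _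
  rw [lp.coeFn_sum, Finset.sum_apply]
  split_ifs with h
  · rw [Finset.sum_eq_single n]
    · rw [lp.single_apply_self]
    · intro k _ hk
      rw [lp.single_apply_ne _ _ _ (Ne.symm hk)]
    · intro h1
      exact absurd (Finset.mem_range.2 h) h1
  · apply Finset.sum_eq_zero
    intro k hk
    rw [lp.single_apply_ne]
    intro h1
    subst h1
    exact h (Finset.mem_range.1 hk)

lemma av_F (c : ℝ) (N : ℕ) : F (av c N) = c := by
  change ∑' n, (av c N).1.fst n = c
  simp_rw [av_apply]
  rw [tsum_eq_sum (s := Finset.range (N + 1))]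
  · rw [Finset.sum_congr rfl (fun n hn => if_pos (Finset.mem_range.1 hn))]
    rw [Finset.sum_const, Finset.card_range, nsmul_eq_mul]
    push_cast
    field_simp
  · intro n hn
    rw [if_neg (fun h => hn (Finset.mem_range.2 h))]

lemma av_norm1 (c : ℝ) (N : ℕ) : ‖(av c N).1.fst‖ = |c| := by
  rw [norm_L1]
  simp_rw [av_apply]
  rw [tsum_eq_sum (s := Finset.range (N + 1))]
  · rw [Finset.sum_congr rfl (fun n hn => by rw [if_pos (Finset.mem_range.1 hn)])]
    rw [Finset.sum_const, Finset.card_range, nsmul_eq_mul, abs_div, abs_of_pos (show (0 : ℝ) < N + 1 by positivity)]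
    push_cast
    field_simp
  · intro n hn
    rw [if_neg (fun h => hn (Finset.mem_range.2 h)), abs_zero]

lemma av_norm2 (c : ℝ) (N : ℕ) : ‖(av c N).1.snd‖ ^ 2 = c ^ 2 / (N + 1) := by
  have h := lp.norm_rpow_eq_tsum (p := 2) (by norm_num) (av c N).1.snd
  have h2 : ‖(av c N).1.snd‖ ^ 2 = ∑' n, |(av c N).1.fst n| ^ 2 := by
    have h3 : ∀ n, (av c N).1.fst n = (av c N).1.snd n := (av c N).2
    simp_rw [h3]
    have e : ((2 : ℝ≥0∞).toReal) = ((2 : ℕ) : ℝ) := by norm_num
    rw [e] at h
    simp only [Real.rpow_natCast, Real.norm_eq_abs] at h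
    exact h
  rw [h2]
  simp_rw [av_apply]
  rw [tsum_eq_sum (s := Finset.range (N + 1))]
  · rw [Finset.sum_congr rfl (fun n hn => by rw [if_pos (Finset.mem_range.1 hn)])]
    rw [Finset.sum_const, Finset.card_range, nsmul_eq_mul, sq_abs]
    push_cast
    field_simp
  · intro n hn
    rw [if_neg (fun h => hn (Finset.mem_range.2 h)), abs_zero]
    norm_num

lemma av_norm (c : ℝ) (N : ℕ) : ‖av c N‖ ^ 2 = c ^ 2 + c ^ 2 / (N + 1) := by
  rw [norm_sq, av_norm1, av_norm2, sq_abs]

/-- the distance to the kernel -/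
lemma infDist_le (x : graph) : Metric.infDist x {p | F p = 0} ≤ |F x| := by
  have h1 : ∀ N : ℕ, Metric.infDist x {p | F p = 0} ^ 2 ≤ F x ^ 2 + F x ^ 2 / (N + 1) := by
    intro N
    rw [← av_norm]
    have h2 : x - av (F x) N ∈ {p | F p = 0} := by
      change F (x - av (F x) N) = 0
      rw [map_sub, av_F, sub_self]
    have h3 := Metric.infDist_le_dist_of_mem (x := x) h2
    rw [dist_eq_norm, sub_sub_cancel] at h3
    exact pow_le_pow_left₀ Metric.infDist_nonneg h3 2
  have h4 : Metric.infDist x {p | F p = 0} ^ 2 ≤ F x ^ 2 := by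
    have hl : Filter.Tendsto (fun N : ℕ => F x ^ 2 + F x ^ 2 / ((N : ℝ) + 1)) Filter.atTop (nhds (F x ^ 2 + 0)) := by
      apply Filter.Tendsto.const_add
      have := tendsto_const_div_atTop_nhds_zero_nat (F x ^ 2)
      have h5 := (Filter.tendsto_add_atTop_iff_nat 1).2 this
      push_cast at h5
      exact h5
    rw [add_zero] at hl
    exact ge_of_tendsto' hl h1
  have h6 := sq_le_sq.1 h4
  rwa [abs_of_nonneg Metric.infDist_nonneg] at h6

lemma ker_closed : IsClosed {p : graph | F p = 0} := isClosed_eq F_cont continuous_const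

lemma ker_interior : interior {p : graph | F p = 0} = ∅ := by
  rw [Set.eq_empty_iff_forall_notMem]
  intro p hp
  obtain ⟨ε, hε, hball⟩ := Metric.mem_nhds_iff.1 (mem_interior_iff_mem_nhds.1 hp)
  have hn : 0 < ‖av 1 0‖ := by
    have h := av_norm 1 0
    rcases (norm_nonneg (av 1 0)).lt_or_eq with h1 | h1
    · exact h1
    · rw [← h1] at h
      norm_num at h
  have h2 : p + (ε / (2 * ‖av 1 0‖)) • av 1 0 ∈ Metric.ball p ε := by
    rw [Metric.mem_ball, dist_eq_norm, add_sub_cancel_left, norm_smul, Real.norm_of_nonneg (by positivity)]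
    rw [div_mul_eq_mul_div, div_lt_iff₀ (by positivity)]
    nlinarith
  have h3 : F (p + (ε / (2 * ‖av 1 0‖)) • av 1 0) = 0 := hball h2
  have h4 : p ∈ {p : graph | F p = 0} := interior_subset hp
  rw [Set.mem_ofPred_eq] at h4
  rw [map_add, h4, map_smul, av_F, zero_add, smul_eq_mul, mul_one] at h3
  have : 0 < ε / (2 * ‖av 1 0‖) := by positivity
  exact absurd h3 this.ne'

theorem main : IsMeagre {x : graph | ∃! y : graph, y ∈ {p : graph | F p = 0} ∧
    dist x y = Metric.infDist x {p : graph | F p = 0}} := by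
  have h1 : IsMeagre {p : graph | F p = 0} := by
    apply IsNowhereDense.isMeagre
    rw [ker_closed.isNowhereDense_iff]
    exact ker_interior
  refine h1.mono ?_
  rintro x ⟨y, ⟨hy, hd⟩, -⟩
  change F x = 0
  by_contra hx
  have hne : x - y ≠ 0 := by
    intro h
    rw [sub_eq_zero] at h
    rw [h] at hx
    exact hx hy
  have h2 := F_lt (x - y) hne
  have h3 := infDist_le x
  rw [← hd, dist_eq_norm] at h3
  have h4 : F y = 0 := hy
  rw [map_sub, h4, sub_zero] at h2
  linarith

end Pool.Agent.X323.LU
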