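import Mathlib

/-!
# A locally uniformly convex space with a hyperplane without nearest points

The space is `ℓ¹` with the norm `(‖x‖₁² + ‖x‖₂²)^(1/2)`, realised as the graph of the inclusion of
`ℓ¹` in `ℓ²`; the hyperplane is the kernel of the sum of the coordinates.
-/

set_option autoImplicit false

namespace Pool.Agent.X323.LU

open scoped ENNReal

abbrev L1 := lp (fun _ : ℕ => ℝ) 1
abbrev L2 := lp (fun _ : ℕ => ℝ) 2

/-- the graph of the inclusion of `ℓ¹` in `ℓ²` -/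
def graph : Submodule ℝ (WithLp 2 (L1 × L2)) where
  carrier := {p | ∀ n, p.fst n = p.snd n}
  add_mem' := by
    intro p q hp hq n
    change p.fst n + q.fst n = p.snd n + q.snd n
    rw [hp n, hq n]
  zero_mem' := fun n => rfl
  smul_mem' := by
    intro c p hp n
    change c * p.fst n = c * p.snd n
    rw [hp n]

lemma eval_cont (p : ℝ≥0∞) [Fact (1 ≤ p)] (n : ℕ) : Continuous fun f : lp (fun _ : ℕ => ℝ) p => f n := by
  have h : LipschitzWith 1 fun f : lp (fun _ : ℕ => ℝ) p => f n := by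
    refine LipschitzWith.of_dist_le_mul fun f g => ?_
    rw [NNReal.coe_one, one_mul, dist_eq_norm, dist_eq_norm]
    exact lp.norm_apply_le_norm (zero_lt_one.trans_le Fact.out).ne' (f - g) n
  exact h.continuous

lemma graph_closed : IsClosed (graph : Set (WithLp 2 (L1 × L2))) := by
  have : (graph : Set (WithLp 2 (L1 × L2))) = ⋂ n, {p | p.fst n = p.snd n} := by
    ext p
    simp only [Set.mem_iInter]
    rfl
  rw [this]
  refine isClosed_iInter fun n => isClosed_eq ?_ ?_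
  · exact (eval_cont 1 n).comp (WithLp.continuous_fst 2 L1 L2)
  · exact (eval_cont 2 n).comp (WithLp.continuous_snd 2 L1 L2)


instance : CompleteSpace graph := graph_closed.completeSpace_coe

lemma norm_L1 (f : L1) : ‖f‖ = ∑' n, |f n| := by
  rw [lp.norm_eq_tsum_rpow (by norm_num)]
  simp

lemma summable_L1 (f : L1) : Summable fun n => |f n| := by
  have := (lp.memℓp f).summable (by norm_num)
  simpa using this

lemma norm_sq (p : graph) : ‖p‖ ^ 2 = ‖p.1.fst‖ ^ 2 + ‖p.1.snd‖ ^ 2 := by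
  rw [← WithLp.prod_norm_sq_eq_of_L2]
  rfl

lemma fst_le (p : graph) : ‖p.1.fst‖ ≤ ‖p‖ := by
  have h := norm_sq p
  nlinarith [norm_nonneg p, norm_nonneg p.1.fst, norm_nonneg p.1.snd, sq_nonneg ‖p.1.snd‖]

lemma norm_le_add (p : graph) : ‖p‖ ≤ ‖p.1.fst‖ + ‖p.1.snd‖ := by
  have h := norm_sq p
  nlinarith [norm_nonneg p, norm_nonneg p.1.fst, norm_nonneg p.1.snd, sq_nonneg ‖p.1.snd‖]

set_option maxHeartbeats 4000000 in
/-- the key estimate -/
lemma key (x y : graph) (t η : ℝ) (N : ℕ) (ht : 0 ≤ t)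
    (htail : ∑' k, |x.1.fst (k + N)| ≤ η)
    (h2 : ‖x.1.snd - y.1.snd‖ ≤ t) (h1 : |‖x.1.fst‖ - ‖y.1.fst‖| ≤ t) :
    ‖x - y‖ ≤ 2 * η + (2 * N + 2) * t := by
  have hc : ∀ k, |x.1.fst k - y.1.fst k| ≤ t := by
    intro k
    rw [x.2 k, y.2 k]
    exact (lp.norm_apply_le_norm (by norm_num) (x.1.snd - y.1.snd) k).trans h2
  have sx := summable_L1 x.1.fst
  have sy := summable_L1 y.1.fst
  have sd : Summable fun n => |x.1.fst n - y.1.fst n| := summable_L1 (x.1.fst - y.1.fst)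
  have e1 : ‖x.1.fst - y.1.fst‖ = ∑' n, |x.1.fst n - y.1.fst n| := norm_L1 (x.1.fst - y.1.fst)
  have ex := sx.sum_add_tsum_nat_add N
  have ey := sy.sum_add_tsum_nat_add N
  have ed := sd.sum_add_tsum_nat_add N
  rw [← norm_L1] at ex ey
  rw [← e1] at ed
  have b1 : ∑ k ∈ Finset.range N, |x.1.fst k - y.1.fst k| ≤ N * t := by
    calc ∑ k ∈ Finset.range N, |x.1.fst k - y.1.fst k| ≤ ∑ _k ∈ Finset.range N, t :=
          Finset.sum_le_sum fun k _ => hc k
      _ = N * t := by simp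
  have b2 : ∑ k ∈ Finset.range N, |x.1.fst k| ≤ ∑ k ∈ Finset.range N, |y.1.fst k| + N * t := by
    calc ∑ k ∈ Finset.range N, |x.1.fst k| ≤ ∑ k ∈ Finset.range N, (|y.1.fst k| + t) := by
          refine Finset.sum_le_sum fun k _ => ?_
          have := abs_sub_abs_le_abs_sub (x.1.fst k) (y.1.fst k)
          linarith [hc k]
      _ = _ := by rw [Finset.sum_add_distrib]; simp
  have sx' : Summable fun k => |x.1.fst (k + N)| := (summable_nat_add_iff N).2 sx
  have sy' : Summable fun k => |y.1.fst (k + N)| := (summable_nat_add_iff N).2 sy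
  have sd' : Summable fun k => |x.1.fst (k + N) - y.1.fst (k + N)| := (summable_nat_add_iff N).2 sd
  have b3 : ∑' k, |x.1.fst (k + N) - y.1.fst (k + N)| ≤ ∑' k, |x.1.fst (k + N)| + ∑' k, |y.1.fst (k + N)| := by
    rw [← sx'.tsum_add sy']
    exact sd'.tsum_le_tsum (fun k => abs_sub _ _) (sx'.add sy')
  have h1' := abs_le.1 h1
  have b4 := norm_le_add (x - y)
  have e2 : ‖(x - y).1.fst‖ = ‖x.1.fst - y.1.fst‖ := rfl
  have e3 : ‖(x - y).1.snd‖ = ‖x.1.snd - y.1.snd‖ := rfl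
  rw [e2, e3] at b4
  have e4 : (2 * (N : ℝ) + 2) * t = 2 * (N * t) + 2 * t := by ring
  rw [e4]
  linarith [h1'.1, h1'.2]

/-- the space is locally uniformly convex -/
theorem lur (x : graph) (hx : ‖x‖ = 1) (ε : ℝ) (hε : 0 < ε) : ∃ δ : ℝ, 0 < δ ∧
    ∀ y : graph, ‖y‖ = 1 → ε ≤ ‖x - y‖ → ‖x + y‖ ≤ 2 - 2 * δ := by
  have htail := tendsto_sum_nat_add (fun k => |x.1.fst k|)
  obtain ⟨N, hN⟩ := ((htail.eventually (gt_mem_nhds (show (0 : ℝ) < ε / 8 by positivity))).exists)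
  set t0 : ℝ := min 1 (ε / (4 * (2 * N + 2))) with ht0
  have ht0pos : 0 < t0 := lt_min one_pos (by positivity)
  have ht01 : t0 ≤ 1 := min_le_left _ _
  have ht02 : t0 * (4 * (2 * N + 2)) ≤ ε := by
    have : t0 ≤ ε / (4 * (2 * N + 2)) := min_le_right _ _
    rwa [le_div_iff₀ (by positivity)] at this
  refine ⟨t0 ^ 2 / 8, by positivity, fun y hy hxy => ?_⟩
  by_contra hcon
  push Not at hcon
  -- the defect
  have hsum := norm_sq (x + y)
  have hxs := norm_sq x
  have hys := norm_sq y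
  rw [hx] at hxs
  rw [hy] at hys
  have e1 : (x + y).1.fst = x.1.fst + y.1.fst := rfl
  have e2 : (x + y).1.snd = x.1.snd + y.1.snd := rfl
  rw [e1, e2] at hsum
  have par := parallelogram_law_with_norm ℝ x.1.snd y.1.snd
  have tri := norm_add_le x.1.fst y.1.fst
  have hD : 4 - ‖x + y‖ ^ 2 < t0 ^ 2 := by
    have h1 : 0 ≤ 2 - 2 * (t0 ^ 2 / 8) := by nlinarith
    have h2 : (2 - 2 * (t0 ^ 2 / 8)) ^ 2 < ‖x + y‖ ^ 2 := by
      apply pow_lt_pow_left₀ hcon h1 (by norm_num)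
    nlinarith [sq_nonneg (t0 ^ 2 / 8)]
  have n1 := norm_nonneg (x.1.fst + y.1.fst)
  have n2 := norm_nonneg x.1.fst
  have n3 := norm_nonneg y.1.fst
  have hsq1 : ‖x.1.fst + y.1.fst‖ ^ 2 ≤ (‖x.1.fst‖ + ‖y.1.fst‖) ^ 2 := by
    apply pow_le_pow_left₀ n1 tri
  have h2 : ‖x.1.snd - y.1.snd‖ ^ 2 ≤ t0 ^ 2 := by nlinarith [sq_nonneg (‖x.1.fst‖ - ‖y.1.fst‖)]
  have h1 : (‖x.1.fst‖ - ‖y.1.fst‖) ^ 2 ≤ t0 ^ 2 := by nlinarith [sq_nonneg ‖x.1.snd - y.1.snd‖]
  have h2' : ‖x.1.snd - y.1.snd‖ ≤ t0 := abs_le_of_sq_le_sq' h2 ht0pos.le |>.2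
  have h1' : |‖x.1.fst‖ - ‖y.1.fst‖| ≤ t0 := abs_le_of_sq_le_sq h1 ht0pos.le
  have := key x y t0 (ε / 8) N ht0pos.le hN.le h2' h1'
  nlinarith

/-- the sum of the coordinates -/
noncomputable def F : graph →ₗ[ℝ] ℝ where
  toFun p := ∑' n, p.1.fst n
  map_add' p q := by
    have hp : Summable fun n => p.1.fst n := (summable_L1 p.1.fst).of_abs
    have hq : Summable fun n => q.1.fst n := (summable_L1 q.1.fst).of_abs
    exact hp.tsum_add hq
  map_smul' c p := by
    exact tsum_mul_left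

lemma F_le (p : graph) : |F p| ≤ ‖p.1.fst‖ := by
  rw [norm_L1]
  have := norm_tsum_le_tsum_norm (f := fun n => p.1.fst n) (by simpa using summable_L1 p.1.fst)
  simp only [Real.norm_eq_abs] at this
  exact this

lemma F_lt (p : graph) (hp : p ≠ 0) : |F p| < ‖p‖ := by
  refine lt_of_le_of_lt (F_le p) ?_
  have h := norm_sq p
  have hs : 0 < ‖p.1.snd‖ := by
    rw [norm_pos_iff]
    intro h0
    apply hp
    apply Subtype.ext
    have h1 : p.1.fst = 0 := by
      ext n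
      rw [p.2 n, h0]
      rfl
    have h2 : WithLp.ofLp p.1 = (0, 0) := Prod.ext h1 h0
    exact (WithLp.ofLp_injective 2 h2 : _)
  nlinarith [norm_nonneg p, norm_nonneg p.1.fst]

lemma F_cont : Continuous F :=
  (F.mkContinuous 1 fun p => by
    rw [one_mul]
    exact (F_le p).trans (fst_le p)).continuous

end Pool.Agent.X323.LU
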